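import Pool.Agent.Y953.CA.DST

set_option autoImplicit false

/-!
# The set of ill-founded trees is analytic
-/

namespace Pool.Agent.Y953.CA

open Topology Filter MeasureTheory Set
open Pool.Agent.H418R3.Gur (br br_length br_inj IF not_analytic)

theorem br_local {b b' : ℕ → ℕ} (n : ℕ) (h : ∀ k < n, b k = b' k) : br b n = br b' n := by
  induction n with
  | zero => rfl
  | succ n ih =>
    show b n :: br b n = b' n :: br b' n
    rw [ih fun k hk => h k (Nat.lt_succ_of_lt hk), h n (Nat.lt_succ_self n)]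

theorem IG_analytic : AnalyticSet IG := by
  have _ : PolishSpace (List ℕ → Bool) := {}
  let ev : ℕ → (List ℕ → Bool) × (ℕ → ℕ) → Bool := fun n p => p.1 (br p.2 (n + 1))
  have hev : ∀ n, Continuous (ev n) := by
    intro n
    rw [continuous_iff_continuousAt]
    rintro ⟨τ, b⟩
    have h2 : (fun p : (List ℕ → Bool) × (ℕ → ℕ) => p.1 (br b (n + 1))) =ᶠ[𝓝 (τ, b)] ev n := by
      have h3 : {c : ℕ → ℕ | ∀ k < n + 1, c k = b k} ∈ 𝓝 b := by
        have h4 : {c : ℕ → ℕ | ∀ k < n + 1, c k = b k} =
            ⋂ k ∈ Finset.range (n + 1), (fun c : ℕ → ℕ => c k) ⁻¹' {b k} := by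
          ext c
          simp
        rw [h4]
        refine (Filter.biInter_finset_mem _).2 fun k _ => ?_
        have h5 : IsOpen ((fun c : ℕ → ℕ => c k) ⁻¹' {b k}) :=
          (isOpen_discrete _).preimage (continuous_apply k)
        exact h5.mem_nhds rfl
      have h6 : (univ : Set (List ℕ → Bool)) ×ˢ {c : ℕ → ℕ | ∀ k < n + 1, c k = b k} ∈
          𝓝 (τ, b) := prod_mem_nhds univ_mem h3
      filter_upwards [h6] with p hp
      show p.1 (br b (n + 1)) = p.1 (br p.2 (n + 1))
      rw [br_local (n + 1) hp.2]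
    exact ((continuous_apply (br b (n + 1))).comp continuous_fst).continuousAt.congr h2
  have hcl : IsClosed (⋂ n : ℕ, {p | ev n p = true}) :=
    isClosed_iInter fun n => isClosed_eq (hev n) continuous_const
  have h2 : IG = Prod.fst '' (⋂ n : ℕ, {p | ev n p = true}) := by
    ext τ
    constructor
    · rintro ⟨b, hb⟩
      exact ⟨(τ, b), mem_iInter.2 fun n => hb n, rfl⟩
    · rintro ⟨⟨τ', b⟩, hb, rfl⟩
      have hb' : ∀ n, (τ', b) ∈ {p | ev n p = true} := fun n => mem_iInter.1 hb n
      exact ⟨b, hb'⟩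
  rw [h2]
  exact hcl.analyticSet.image_of_continuous continuous_fst

end Pool.Agent.Y953.CA
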