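import Pool.Agent.H418R3.GurWF

set_option autoImplicit false

/-!
# Codes of analytic sets by trees
-/

namespace Pool.Agent.Y953.CA

open Topology Filter MeasureTheory Set
open Pool.Agent.H418R3.Gur (br br_length br_inj IF not_analytic)

/-- codes of trees with an infinite branch (the root is ignored) -/
def IG : Set (List ℕ → Bool) := {τ | ∃ b : ℕ → ℕ, ∀ n, τ (br b (n + 1)) = true}

theorem tendsto_br {b : ℕ → ℕ} {y : ℕ → ℕ → ℕ} (h : ∀ n, br (y n) (n + 1) = br b (n + 1)) :
    Tendsto y atTop (𝓝 b) := by
  rw [tendsto_pi_nhds]
  intro k
  apply tendsto_const_nhds.congr'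
  filter_upwards [eventually_ge_atTop k] with n hn
  exact (br_inj (h n) k (by omega)).symm

open Classical in
/-- Analytic subsets of the Baire space reduce continuously to the set of ill-founded trees. -/
theorem codes_baire (A : Set (ℕ → ℕ)) (hA : AnalyticSet A) :
    ∃ τ : (ℕ → ℕ) → (List ℕ → Bool), Continuous τ ∧ ∀ x, x ∈ A ↔ τ x ∈ IG := by
  rw [AnalyticSet] at hA
  rcases hA with rfl | ⟨f, hf, rfl⟩
  · refine ⟨fun _ _ => false, continuous_const, fun x => ?_⟩
    constructor
    · intro h; exact absurd h (by simp)
    · rintro ⟨b, hb⟩; exact absurd (hb 0) (by simp)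
  · refine ⟨fun x s => decide (∃ y, br y s.length = s ∧ ∀ k : Fin s.length, f y k = x k), ?_,
      fun x => ?_⟩
    · refine continuous_pi fun s => ?_
      have h1 : Continuous fun x : ℕ → ℕ => fun k : Fin s.length => x k :=
        continuous_pi fun k => continuous_apply _
      have h2 : Continuous fun z : Fin s.length → ℕ =>
          decide (∃ y, br y s.length = s ∧ ∀ k : Fin s.length, f y k = z k) :=
        continuous_of_discreteTopology
      exact h2.comp h1
    · constructor
      · rintro ⟨b, rfl⟩
        refine ⟨b, fun n => ?_⟩
        simp only [decide_eq_true_eq]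
        exact ⟨b, by rw [br_length], fun k => rfl⟩
      · rintro ⟨b, hb⟩
        simp only [decide_eq_true_eq, br_length] at hb
        choose y hy1 hy2 using hb
        have hlim := tendsto_br hy1
        have h2 : Tendsto (fun n => f (y n)) atTop (𝓝 (f b)) := (hf.tendsto b).comp hlim
        refine ⟨b, ?_⟩
        funext k
        rw [tendsto_pi_nhds] at h2
        refine tendsto_nhds_unique (h2 k) ?_
        apply tendsto_const_nhds.congr'
        filter_upwards [eventually_ge_atTop k] with n hn
        exact (hy2 n ⟨k, by rw [br_length]; omega⟩).symm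

open Classical in
/-- Analytic subsets of Polish spaces are Borel reducible to the set of ill-founded trees. -/
theorem codes_polish {P : Type} [TopologicalSpace P] [PolishSpace P] [MeasurableSpace P]
    [BorelSpace P] (A : Set P) (hA : AnalyticSet A) :
    ∃ τ : P → (List ℕ → Bool), Measurable τ ∧ ∀ x, x ∈ A ↔ τ x ∈ IG := by
  rw [AnalyticSet] at hA
  rcases hA with rfl | ⟨f, hf, rfl⟩
  · refine ⟨fun _ _ => false, measurable_const, fun x => ?_⟩
    constructor
    · intro h; exact absurd h (by simp)
    · rintro ⟨b, hb⟩; exact absurd (hb 0) (by simp)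
  · refine ⟨fun x s => if x ∈ closure (f '' {y | br y s.length = s}) then true else false, ?_,
      fun x => ?_⟩
    · refine measurable_pi_iff.2 fun s => ?_
      exact Measurable.ite isClosed_closure.measurableSet measurable_const measurable_const
    · constructor
      · rintro ⟨b, rfl⟩
        refine ⟨b, fun n => ?_⟩
        have h0 : b ∈ {y | br y (br b (n + 1)).length = br b (n + 1)} := by
          show br b (br b (n + 1)).length = br b (n + 1)
          rw [br_length]
        have h1 : f b ∈ closure (f '' {y | br y (br b (n + 1)).length = br b (n + 1)}) :=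
          subset_closure ⟨b, h0, rfl⟩
        exact if_pos h1
      · rintro ⟨b, hb⟩
        refine ⟨b, ?_⟩
        by_contra hne
        have hb' : ∀ n, x ∈ closure (f '' {y | br y (n + 1) = br b (n + 1)}) := by
          intro n
          by_contra hcon
          have h1 := hb n
          simp only [br_length] at h1
          rw [if_neg hcon] at h1
          exact absurd h1 (by simp)
        have hU : {x}ᶜ ∈ 𝓝 (f b) := isOpen_compl_singleton.mem_nhds hne
        obtain ⟨V, hV, hVc, hVU⟩ := exists_mem_nhds_isClosed_subset hU
        have key : ∃ n, f '' {y | br y (n + 1) = br b (n + 1)} ⊆ V := by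
          by_contra hcon
          push Not at hcon
          have h2 : ∀ n, ∃ y, br y (n + 1) = br b (n + 1) ∧ f y ∉ V := by
            intro n
            obtain ⟨_, ⟨y, hy, rfl⟩, hyV⟩ := Set.not_subset.1 (hcon n)
            exact ⟨y, hy, hyV⟩
          choose y hy1 hy2 using h2
          have h3 : Tendsto (fun n => f (y n)) atTop (𝓝 (f b)) :=
            (hf.tendsto b).comp (tendsto_br hy1)
          obtain ⟨n, hn⟩ := (h3.eventually hV).exists
          exact hy2 n hn
        obtain ⟨n, hn⟩ := key
        have h4 : x ∈ V := hVc.closure_subset_iff.2 hn (hb' n)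
        exact hVU h4 rfl

theorem IG_not_coanalytic : ¬ AnalyticSet (IGᶜ : Set (List ℕ → Bool)) := by
  intro h
  apply not_analytic
  have _ : PolishSpace (List ℕ → Bool) := {}
  have e : (IFᶜ : Set (List ℕ → Bool)) = ⋃ c : Bool, if c then IGᶜ else {τ | τ [] = false} := by
    ext τ
    rw [mem_iUnion]
    constructor
    · intro hτ
      by_cases h0 : τ [] = true
      · refine ⟨true, ?_⟩
        show τ ∈ (if true = true then IGᶜ else {τ : List ℕ → Bool | τ [] = false})
        rw [if_pos rfl]
        rintro ⟨b, hb⟩
        refine hτ ⟨b, fun n => ?_⟩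
        cases n with
        | zero => exact h0
        | succ n => exact hb n
      · refine ⟨false, ?_⟩
        show τ ∈ (if false = true then IGᶜ else {τ : List ℕ → Bool | τ [] = false})
        rw [if_neg (by simp)]
        exact Bool.eq_false_iff.2 h0
    · rintro ⟨c, hc⟩ ⟨b, hb⟩
      cases c with
      | false =>
        rw [if_neg (by simp)] at hc
        have h1 : τ [] = false := hc
        have h2 : τ [] = true := hb 0
        rw [h1] at h2
        exact absurd h2 (by simp)
      | true =>
        rw [if_pos rfl] at hc
        exact hc ⟨b, fun n => hb (n + 1)⟩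
  rw [e]
  refine AnalyticSet.iUnion fun c => ?_
  cases c with
  | false =>
    rw [if_neg (by simp)]
    have h3 : IsClosed {τ : List ℕ → Bool | τ [] = false} :=
      isClosed_eq (continuous_apply _) continuous_const
    exact h3.analyticSet
  | true =>
    rw [if_pos rfl]
    exact h

end Pool.Agent.Y953.CA
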