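import Pool.Agent.Helper114.AB.Main

set_option autoImplicit false

/-!
# Analytic sets and countable linear orders
-/

namespace Pool.Agent.Y953.CA

open Topology Filter MeasureTheory Set
open Pool.Agent.Helper114.AB

section

variable {P : Type}

/-- the cylinder of a word -/
def cyl (s : List ℕ) : Set (ℕ → ℕ) := {v | List.ofFn (fun i : Fin s.length => v i) = s}

theorem mem_cyl_iff {s : List ℕ} {v : ℕ → ℕ} :
    v ∈ cyl s ↔ ∀ (i : ℕ) (h : i < s.length), v i = s[i] := by
  constructor
  · intro h i hi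
    have h1 : List.ofFn (fun i : Fin s.length => v i) = s := h
    have h2 := congrArg (fun l : List ℕ => l[i]?) h1
    simp only [List.getElem?_ofFn, hi, dif_pos, List.getElem?_eq_getElem] at h2
    exact Option.some_injective _ h2
  · intro h
    show List.ofFn (fun i : Fin s.length => v i) = s
    apply List.ext_getElem
    · rw [List.length_ofFn]
    · intro i h1 h2
      rw [List.getElem_ofFn]
      exact h i h2

theorem cyl_mono {s t : List ℕ} (h : s <+: t) : cyl t ⊆ cyl s := by
  intro v hv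
  rw [mem_cyl_iff] at hv ⊢
  intro i hi
  rw [hv i (lt_of_lt_of_le hi h.length_le)]
  exact (h.getElem hi).symm

theorem tendsto_cyl {v : ℕ → ℕ} {w : ℕ → ℕ → ℕ}
    (h : ∀ n, w n ∈ cyl (List.ofFn (fun i : Fin n => v i))) : Tendsto w atTop (𝓝 v) := by
  rw [tendsto_pi_nhds]
  intro k
  apply tendsto_const_nhds.congr'
  filter_upwards [eventually_gt_atTop k] with n hn
  have h1 := mem_cyl_iff.1 (h n) k (by rw [List.length_ofFn]; exact hn)
  rw [List.getElem_ofFn] at h1
  exact h1.symm

/-- Analytic sets are the sets of the points with an ill-founded tree, for Borel families of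
trees. -/
theorem trees [TopologicalSpace P] [PolishSpace P] [MeasurableSpace P] [BorelSpace P]
    (A : Set P) (hA : AnalyticSet A) : ∃ T : P → Set (List ℕ),
    (∀ y s t, s <+: t → t ∈ T y → s ∈ T y) ∧ (∀ s, MeasurableSet {y | s ∈ T y}) ∧
    A = {y | ∃ v : ℕ → ℕ, ∀ n, List.ofFn (fun i : Fin n => v i) ∈ T y} := by
  rw [AnalyticSet] at hA
  rcases hA with rfl | ⟨f, hf, rfl⟩
  · refine ⟨fun _ => ∅, fun y s t _ h => h, fun s => ?_, ?_⟩
    · exact MeasurableSet.const _
    · ext y
      constructor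
      · intro h; exact absurd h (by simp)
      · rintro ⟨v, hv⟩; exact hv 0
  · refine ⟨fun y => {s | y ∈ closure (f '' cyl s)}, fun y s t hst ht =>
      closure_mono (image_mono (cyl_mono hst)) ht, fun s => isClosed_closure.measurableSet, ?_⟩
    ext y
    constructor
    · rintro ⟨b, rfl⟩
      refine ⟨b, fun n => subset_closure ⟨b, ?_, rfl⟩⟩
      rw [mem_cyl_iff]
      intro i hi
      rw [List.getElem_ofFn]
    · rintro ⟨b, hb⟩
      refine ⟨b, ?_⟩
      by_contra hne
      have hU : {y}ᶜ ∈ 𝓝 (f b) := isOpen_compl_singleton.mem_nhds hne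
      obtain ⟨V, hV, hVc, hVU⟩ := exists_mem_nhds_isClosed_subset hU
      have key : ∃ n, f '' cyl (List.ofFn (fun i : Fin n => b i)) ⊆ V := by
        by_contra hcon
        push Not at hcon
        have h2 : ∀ n, ∃ w, w ∈ cyl (List.ofFn (fun i : Fin n => b i)) ∧ f w ∉ V := by
          intro n
          obtain ⟨_, ⟨w, hw, rfl⟩, hwV⟩ := Set.not_subset.1 (hcon n)
          exact ⟨w, hw, hwV⟩
        choose w hw1 hw2 using h2
        have h3 : Tendsto (fun n => f (w n)) atTop (𝓝 (f b)) :=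
          (hf.tendsto b).comp (tendsto_cyl hw1)
        obtain ⟨n, hn⟩ := (h3.eventually hV).exists
        exact hw2 n hn
      obtain ⟨n, hn⟩ := key
      have h4 : y ∈ V := hVc.closure_subset_iff.2 hn (hb n)
      exact hVU h4 rfl

/-- Analytic sets and pairs of countable linear orders. -/
theorem orders' [TopologicalSpace P] [PolishSpace P] [MeasurableSpace P] [BorelSpace P]
    (Nb : Set P) (hNb : AnalyticSet Nb) : ∃ (r1 r2 : P → ℕ → ℕ → Prop),
    (∀ y, STO (r1 y)) ∧ (∀ y, STO (r2 y)) ∧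
    (∀ m n, MeasurableSet {y | r1 y m n}) ∧
    (∀ m n, MeasurableSet {y | r2 y m n}) ∧
    (∀ y ∈ Nb, ∃ π : ℕ ≃ ℕ, ∀ m n, r1 y m n ↔ r2 y (π m) (π n)) ∧
    (∀ y ∉ Nb, WellFounded (r1 y)) ∧
    (∀ y, ∃ S, DL (r2 y) S) := by
  obtain ⟨T, hT1, hT2, rfl⟩ := trees Nb hNb
  obtain ⟨L, hL1, hL2, hL3⟩ := kleene_brouwer
  haveI i1 : Infinite (List ℕ →₀ ℕ) :=
    Infinite.of_injective (fun n => Finsupp.single [] n) (Finsupp.single_injective [])
  haveI i2 : Infinite (WithBot ℚ × (List ℕ →₀ ℕ)) :=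
    Infinite.of_injective (fun f => (⊥, f)) (fun f g h => (Prod.mk.inj h).2)
  haveI i3 : Countable (WithBot ℚ) := inferInstanceAs (Countable (Option ℚ))
  obtain ⟨e1⟩ : Nonempty ((List ℕ →₀ ℕ) ≃ ℕ) := nonempty_equiv_of_countable
  obtain ⟨e2⟩ : Nonempty ((WithBot ℚ × (List ℕ →₀ ℕ)) ≃ ℕ) := nonempty_equiv_of_countable
  have hLm : ∀ a b, Measurable (fun y => L (T y) a b) := by
    intro a b
    obtain ⟨Q, hQ⟩ := hL3 a b
    have h : (fun y => L (T y) a b) = fun y => Q (a ∈ T y) (b ∈ T y) := by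
      funext y
      exact propext (hQ (T y))
    rw [h]
    exact ord_meas Q _ _ (measurableSet_setOf.mp (hT2 a)) (measurableSet_setOf.mp (hT2 b))
  have hEx : ∀ f g, Measurable (fun y => Ex (L (T y)) f g) := by
    intro f g
    exact Measurable.exists fun a => measurable_const.and
      (Measurable.forall fun b => (hLm a b).imp measurable_const)
  have hEx2 : ∀ p q, Measurable (fun y => Ex2 (L (T y)) p q) := by
    intro p q
    exact measurable_const.or (measurable_const.and (hEx _ _))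
  refine ⟨fun y m n => Ex (L (T y)) (e1.symm m) (e1.symm n),
    fun y m n => Ex2 (L (T y)) (e2.symm m) (e2.symm n), ?_, ?_, ?_, ?_, ?_, ?_, ?_⟩
  · intro y
    exact ord_sto (Ex_sto (hL1 (T y))) e1.symm
  · intro y
    exact ord_sto (Ex2_sto (hL1 (T y))) e2.symm
  · intro m n
    exact measurableSet_setOf.mpr (hEx _ _)
  · intro m n
    exact measurableSet_setOf.mpr (hEx2 _ _)
  · intro y hy
    have hw : ¬ WellFounded (L (T y)) := fun h => (hL2 (T y) (hT1 y)).mp h hy
    obtain ⟨e, he⟩ := Ex_iso (hL1 (T y)) hw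
    refine ⟨e1.symm.trans (e.trans e2), fun m n => ?_⟩
    simp only [Equiv.trans_apply, Equiv.symm_apply_apply]
    exact he _ _
  · intro y hy
    have hw : WellFounded (L (T y)) := (hL2 (T y) (hT1 y)).mpr hy
    exact InvImage.wf e1.symm (Ex_wf (hL1 (T y)) hw)
  · intro y
    obtain ⟨S, hS⟩ := Ex2_dl (hL1 (T y))
    exact ⟨_, ord_dl hS e2⟩

end

end Pool.Agent.Y953.CA
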