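import Pool.Agent.Y953.CA.Ht

set_option autoImplicit false

/-!
# The systems on an arbitrary standard atomless probability space
-/

namespace Pool.Agent.Y953.CA

open Filter Topology Set MeasureTheory
open Pool.Agent.W922.Dis
open Pool.Agent.W922.MD (continuous_meas_Fm mu mp_Fm mp_cjH ergodic_Fm branch_of_conj)
open Pool.Agent.Results.MP_1b52a3_lc.NoBorelReduction (PreAut Aut mk_eq_mk_iff)

section

variable {Y : Type} [MeasurableSpace Y] {ν : Measure Y}

/-- The ergodic elements of `Aut(Y, ν)`. -/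
abbrev Erg (ν : Measure Y) : Type :=
  {a : Aut ν // ∃ T : PreAut ν, QuotientGroup.mk T = a ∧ Ergodic (T.1 : Y → Y) ν}

/-- The element of `Aut(Y, ν)` is measure distal of height at most `n`. -/
def HtLe (n : ℕ) (a : Aut ν) : Prop :=
  ∃ T : PreAut ν, QuotientGroup.mk T = a ∧ DistalHt n ν (T.1 : Y → Y)

variable (e : Pool.Agent.W922.Dis.X ≃ᵐ Y) (he : MeasurePreserving e mu ν)

/-- transport -/
noncomputable def gtp (F : Pool.Agent.W922.Dis.X ≃ᵐ Pool.Agent.W922.Dis.X)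
    (hF : MeasurePreserving F mu mu) : PreAut ν :=
  ⟨((e.symm.trans F).trans e).toEquiv,
    ⟨he.comp (hF.comp (MeasurePreserving.symm e he)),
      he.comp ((MeasurePreserving.symm F hF).comp (MeasurePreserving.symm e he))⟩⟩

/-- the transformation -/
noncomputable def gPA (τ : List ℕ → Bool) (b : ℤ) : PreAut ν :=
  gtp e he (Pool.Agent.Results.MP_78c86a_lc.NoBorelCriterion.FE τ b) (mp_Fm τ b)

theorem gPA_apply (τ : List ℕ → Bool) (b : ℤ) (x : Y) :
    (gPA e he τ b).1 x = e (Fm τ b (e.symm x)) := rfl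

theorem continuous_gPA (b : ℤ) : Continuous fun τ => gPA e he τ b := by
  rw [continuous_induced_rng]
  refine continuous_pi fun p => ?_
  obtain ⟨⟨A, hA⟩, ⟨B, hB⟩⟩ := p
  have h1 := continuous_meas_Fm b (e ⁻¹' A) (e ⁻¹' B) (e.measurable hA)
  have h2 : ∀ τ, ν.real ((gPA e he τ b).1 ⁻¹' A ∩ B)
      = mu.real ((Fm τ b) ⁻¹' (e ⁻¹' A) ∩ e ⁻¹' B) := by
    intro τ
    have h3 : e ⁻¹' ((gPA e he τ b).1 ⁻¹' A ∩ B) = (Fm τ b) ⁻¹' (e ⁻¹' A) ∩ e ⁻¹' B := by
      ext x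
      show (e (Fm τ b (e.symm (e x))) ∈ A ∧ e x ∈ B) ↔ (e (Fm τ b x) ∈ A ∧ e x ∈ B)
      rw [e.symm_apply_apply]
    have h4 : MeasurableSet ((gPA e he τ b).1 ⁻¹' A ∩ B) :=
      ((gPA e he τ b).2.1.measurable hA).inter hB
    rw [← h3, measureReal_def, measureReal_def, he.measure_preimage h4.nullMeasurableSet]
  exact h1.congr fun τ => (h2 τ).symm

theorem gPA_ergodic (τ : List ℕ → Bool) (b : ℤ) :
    Ergodic ((gPA e he τ b).1 : Y → Y) ν :=
  (he.ergodic_conjugate_iff (f := Fm τ b)).2 (ergodic_Fm τ b)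

/-- the points of `Erg` -/
noncomputable def gpt (τ : List ℕ → Bool) (b : ℤ) : Erg ν :=
  ⟨QuotientGroup.mk (gPA e he τ b), gPA e he τ b, rfl, gPA_ergodic e he τ b⟩

theorem gpt_ht (τ : List ℕ → Bool) (b : ℤ) : HtLe 3 (gpt e he τ b).1 :=
  ⟨_, rfl, (distal3 τ b).conj e he⟩

theorem continuous_gpt (b : ℤ) : Continuous fun τ => gpt e he τ b :=
  Continuous.subtype_mk (continuous_quotient_mk'.comp (continuous_gPA e he b)) _

theorem gconj_iff (τ : List ℕ → Bool) :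
    (∃ U : Aut ν, (gpt e he τ 1).1 = U * (gpt e he τ 0).1 * U⁻¹) ↔ τ ∈ IG := by
  constructor
  · rintro ⟨U, hU⟩
    obtain ⟨W, rfl⟩ := QuotientGroup.mk_surjective U
    have hU' : (QuotientGroup.mk (gPA e he τ 1) : Aut ν) =
      QuotientGroup.mk W * QuotientGroup.mk (gPA e he τ 0) * (QuotientGroup.mk W)⁻¹ := hU
    rw [eq_mul_inv_iff_mul_eq] at hU'
    have hU2 : (QuotientGroup.mk W : Aut ν)⁻¹ * QuotientGroup.mk (gPA e he τ 1) =
        QuotientGroup.mk (gPA e he τ 0) * (QuotientGroup.mk W)⁻¹ := by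
      rw [inv_mul_eq_iff_eq_mul, ← mul_assoc, eq_mul_inv_iff_mul_eq]
      exact hU'
    have h1 : (QuotientGroup.mk (W⁻¹ * gPA e he τ 1) : Aut ν) =
      QuotientGroup.mk (gPA e he τ 0 * W⁻¹) := hU2
    rw [mk_eq_mk_iff] at h1
    have h2 : ∀ᵐ x ∂ν, (W⁻¹).1 (e (Fm τ 1 (e.symm x))) = e (Fm τ 0 (e.symm ((W⁻¹).1 x))) := h1
    have h3 := he.quasiMeasurePreserving.ae h2
    have h4 : ∃ b : ℕ → ℕ, ∀ n, τ (Pool.Agent.H418R3.Gur.br b (n + 1)) = true := by
      refine branch_of_conj (h := fun x => e.symm ((W⁻¹).1 (e x)))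
        (e.symm.measurable.comp ((W⁻¹).2.1.measurable.comp e.measurable)) ?_
      filter_upwards [h3] with x hx
      rw [e.symm_apply_apply] at hx
      show e.symm ((W⁻¹).1 (e (Fm τ 1 x))) = Fm τ 0 (e.symm ((W⁻¹).1 (e x)))
      rw [hx, e.symm_apply_apply]
    exact h4
  · rintro ⟨b, hb⟩
    have hs := sol_of_branch hb
    let f := solf b
    let UE : Pool.Agent.W922.Dis.X ≃ᵐ Pool.Agent.W922.Dis.X := (cjH f).toMeasurableEquiv
    have hU : MeasurePreserving UE mu mu := mp_cjH f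
    refine ⟨(QuotientGroup.mk (gtp e he UE hU) : Aut ν)⁻¹, ?_⟩
    rw [inv_inv, eq_comm, mul_assoc, inv_mul_eq_iff_eq_mul]
    refine congrArg QuotientGroup.mk (Subtype.ext (Equiv.ext fun x => ?_))
    show e (Fm τ 0 (e.symm (e (cjH f (e.symm x))))) = e (cjH f (e.symm (e (Fm τ 1 (e.symm x)))))
    rw [e.symm_apply_apply, e.symm_apply_apply, conj_of_sol hs]

end

end Pool.Agent.Y953.CA
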