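import Pool.Agent.Results.MP_78c86a_lc.NoBorelCriterion
import Pool.Agent.Y953.CA.DST

set_option autoImplicit false

/-!
# Measure distal transformations of finite height, and the Hausdorff property of the weak topology
-/

namespace Pool.Agent.Y953.CA

open Filter Topology Set MeasureTheory
open Pool.Agent.W922.MD (IsFactor AEEq AELe IsometricExt MeasureDistal sg isometric factor sg_le
  rk lev coord_meas)
open Pool.Agent.Results.MP_1b52a3_lc.NoBorelReduction (PreAut Aut mk_eq_mk_iff)
open Pool.Agent.Results.MP_78c86a_lc.NoBorelCriterion (lam EMPT MD Conj)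

/-- `T` is measure distal of height at most `n`: there are factors `A 0`, ..., `A n` of `T` such
that `A 0` is trivial, `A n` is the system itself and `A (i + 1)` is an isometric (compact)
extension of `A i` for `i < n`. -/
def DistalHt (n : ℕ) {X : Type} [m : MeasurableSpace X] (μ : Measure X) (T : X → X) : Prop :=
  ∃ A : ℕ → MeasurableSpace X, (∀ i ≤ n, IsFactor (A i) μ T) ∧ AEEq (A 0) ⊥ μ ∧
    AEEq (A n) m μ ∧ ∀ i < n, IsometricExt (A i) (A (i + 1)) μ T

theorem DistalHt.measureDistal {n : ℕ} {X : Type} [m : MeasurableSpace X] {μ : Measure X}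
    {T : X → X} (h : DistalHt n μ T) : MeasureDistal μ T := by
  classical
  obtain ⟨A, h1, h2, h3, h4⟩ := h
  let B : Ordinal.{0} → MeasurableSpace X := fun α =>
    if h : ∃ k : ℕ, α = k then A h.choose else ⊥
  have hB : ∀ k : ℕ, B k = A k := by
    intro k
    have h : ∃ k' : ℕ, (k : Ordinal.{0}) = k' := ⟨k, rfl⟩
    show (if h : ∃ k' : ℕ, (k : Ordinal.{0}) = k' then A h.choose else ⊥) = _
    rw [dif_pos h]
    have h5 : (k : Ordinal.{0}) = (h.choose : ℕ) := h.choose_spec
    rw [← Nat.cast_inj.1 h5]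
  have hnat : ∀ α : Ordinal.{0}, α ≤ n → ∃ k : ℕ, k ≤ n ∧ α = k := by
    intro α hα
    obtain ⟨k, hk⟩ := Ordinal.lt_omega0.1 (hα.trans_lt (Ordinal.natCast_lt_omega0 n))
    refine ⟨k, ?_, hk⟩
    rw [hk] at hα
    exact_mod_cast hα
  refine ⟨n, B, ?_, ?_, ?_, ?_, ?_⟩
  · intro α hα
    obtain ⟨k, hk, rfl⟩ := hnat α hα
    rw [hB]
    exact h1 k hk
  · have := hB 0
    rw [Nat.cast_zero] at this
    rw [this]
    exact h2
  · rw [hB]
    exact h3
  · intro α hα
    obtain ⟨k, hk, rfl⟩ := hnat α hα.le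
    have hk2 : k < n := by exact_mod_cast hα
    have h5 := hB (k + 1)
    rw [Nat.cast_add, Nat.cast_one] at h5
    rw [hB, h5]
    exact h4 k hk2
  · intro α hα hlim
    obtain ⟨k, hk, rfl⟩ := hnat α hα
    exfalso
    have h6 := Ordinal.omega0_le_of_isSuccLimit hlim
    exact absurd (Ordinal.natCast_lt_omega0 k) (not_lt.2 h6)

theorem DistalHt.conj {n : ℕ} {X Y : Type} [mX : MeasurableSpace X] [mY : MeasurableSpace Y]
    {μ : Measure X} {ν : Measure Y} (e : X ≃ᵐ Y) (he : MeasurePreserving e μ ν) {T : X → X}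
    (h : DistalHt n μ T) : DistalHt n ν (fun y => e (T (e.symm y))) := by
  obtain ⟨A, h1, h2, h3, h4⟩ := h
  refine ⟨fun i => (A i).comap e.symm, fun i hi => (h1 i hi).conj e he, ?_, ?_,
    fun i hi => (h4 i hi).conj e he (h1 i hi.le).1⟩
  · have := h2.conj e he
    rwa [MeasurableSpace.comap_bot] at this
  · have := h3.conj e he
    rwa [e.symm.measurableEmbedding.comap_eq] at this

theorem distal3 (τ : List ℕ → Bool) (b : ℤ) :
    DistalHt 3 Pool.Agent.W922.MD.mu (Pool.Agent.W922.Dis.Fm τ b) := by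
  refine ⟨sg, fun i _ => factor τ b i, ?_, ?_, fun i _ => isometric τ b i⟩
  · have : IsEmpty (lev 0) := ⟨fun i => Nat.not_lt_zero _ i.2⟩
    have h : sg 0 = ⊥ := by
      unfold sg
      exact iSup_of_empty _
    rw [h]
    exact .refl _
  · have h : sg 3 = MeasurableSpace.pi := by
      refine le_antisymm (sg_le 3) ?_
      have h1 : ∀ i : Pool.Agent.W922.Dis.Ix, i ∈ lev 3 := by
        intro i
        rcases i with _ | j | j | q
        · show 0 < 3; norm_num
        · show 0 < 3; norm_num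
        · show 1 < 3; norm_num
        · show 2 < 3; norm_num
      refine iSup_le fun i => ?_
      exact (coord_meas (h1 i)).comap_le
    rw [h]
    exact .refl _

/-- The transformation is measure distal of height at most `n`. -/
def MDH (n : ℕ) (a : EMPT) : Prop :=
  ∃ T : PreAut lam, QuotientGroup.mk T = a.1 ∧ DistalHt n lam (T.1 : unitInterval → unitInterval)

theorem MDH.md {n : ℕ} {a : EMPT} (h : MDH n a) : MD a := by
  obtain ⟨T, h1, h2⟩ := h
  exact ⟨T, h1, h2.measureDistal⟩

theorem pt_MDH (e : Pool.Agent.W922.Dis.X ≃ᵐ unitInterval)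
    (he : MeasurePreserving e Pool.Agent.W922.MD.mu lam) (τ : List ℕ → Bool) (b : ℤ) :
    MDH 3 (Pool.Agent.Results.MP_78c86a_lc.NoBorelCriterion.pt e he τ b) :=
  ⟨_, rfl, (distal3 τ b).conj e he⟩

/-! ### The weak topology is Hausdorff -/

/-- the coefficients -/
noncomputable def cf (U : PreAut lam)
    (p : {A : Set unitInterval // MeasurableSet A} × {B : Set unitInterval // MeasurableSet B}) :
    ℝ := lam.real ((U.1 : unitInterval → unitInterval) ⁻¹' p.1.1 ∩ p.2.1)

theorem cf_eq {U V : PreAut lam} (h : ∀ᵐ x ∂lam, U.1 x = V.1 x) : cf U = cf V := by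
  funext p
  unfold cf
  refine measureReal_congr ?_
  filter_upwards [h] with x hx
  show (U.1 x ∈ p.1.1 ∧ x ∈ p.2.1) = (V.1 x ∈ p.1.1 ∧ x ∈ p.2.1)
  rw [hx]

theorem eq_of_cf {U V : PreAut lam} (h : cf U = cf V) : ∀ᵐ x ∂lam, U.1 x = V.1 x := by
  have key : ∀ (U V : PreAut lam), cf U = cf V → ∀ A : Set unitInterval, MeasurableSet A →
      ∀ᵐ x ∂lam, U.1 x ∈ A → V.1 x ∈ A := by
    intro U V h A hA
    have hB : MeasurableSet ((V.1 : unitInterval → unitInterval) ⁻¹' A)ᶜ :=
      (V.2.1.measurable hA).compl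
    have h1 : cf U (⟨A, hA⟩, ⟨_, hB⟩) = cf V (⟨A, hA⟩, ⟨_, hB⟩) := congrFun h _
    have h2 : cf V (⟨A, hA⟩, ⟨_, hB⟩) = 0 := by
      show lam.real ((V.1 : unitInterval → unitInterval) ⁻¹' A ∩
        ((V.1 : unitInterval → unitInterval) ⁻¹' A)ᶜ) = 0
      rw [inter_compl_self, measureReal_empty]
    rw [h2] at h1
    have h3 : lam ((U.1 : unitInterval → unitInterval) ⁻¹' A ∩
        ((V.1 : unitInterval → unitInterval) ⁻¹' A)ᶜ) = 0 :=
      (measureReal_eq_zero_iff (measure_ne_top _ _)).1 h1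
    have h4 := measure_eq_zero_iff_ae_notMem.1 h3
    filter_upwards [h4] with x hx hxA
    by_contra hcon
    exact hx ⟨hxA, hcon⟩
  refine EventuallyEq.of_forall_separating_mem_iff MeasurableSet fun A hA => ?_
  filter_upwards [key U V h A hA, key V U h.symm A hA] with x h1 h2
  exact ⟨h1, h2⟩

/-- the coefficients on the quotient -/
noncomputable def cq : Aut lam →
    ({A : Set unitInterval // MeasurableSet A} × {B : Set unitInterval // MeasurableSet B}) → ℝ :=
  Quotient.lift cf fun U V h => cf_eq ((mk_eq_mk_iff lam U V).1 (Quotient.sound h))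

theorem cq_cont : Continuous cq := by
  refine (QuotientGroup.isQuotientMap_mk _).continuous_iff.2 ?_
  show Continuous cf
  exact continuous_induced_dom

theorem cq_inj : Function.Injective cq := by
  intro a b h
  obtain ⟨U, rfl⟩ := QuotientGroup.mk_surjective a
  obtain ⟨V, rfl⟩ := QuotientGroup.mk_surjective b
  exact (mk_eq_mk_iff lam U V).2 (eq_of_cf h)

theorem t2_aut : T2Space (Aut lam) := T2Space.of_injective_continuous cq_inj cq_cont

end Pool.Agent.Y953.CA
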